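import Pool.Agent.R211.BQ.Att

/-!
The projection of the attractor of the semi-dissipative Boussinesq system on the temperature is
the whole space of mean-free square integrable functions.
-/

set_option autoImplicit false

open Set MeasureTheory
open Pool.Agent.R211.BQ

namespace Pool.Agent.Results.MP_f7c28d_an.AllTemperatures

/-- For all `L, ν, g > 0` every mean-free `θ₀ ∈ L²` is the temperature component of a point of the
attractor (and conversely), that is `P_θ 𝒜 = L²`. -/
theorem result (L ν g : ℝ) (hL : 0 < L) (hν : 0 < ν) (_ : 0 < g) :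
    (∀ θ₀ ∈ L20, ∃ u₀ ∈ Hs, (u₀, θ₀) ∈ Att L ν g) ∧ Prod.snd '' Att L ν g = L20 := by
  refine ⟨fun θ₀ h => att_full hL hν h, ?_⟩
  refine Subset.antisymm ?_ fun θ₀ h => ?_
  · rintro _ ⟨p, ⟨u, θ, h1, -, -, h4⟩, rfl⟩
    rw [← h4]
    exact h1.memL 0 (mem_univ _)
  · obtain ⟨u₀, -, h2⟩ := att_full (g := g) hL hν h
    exact ⟨(u₀, θ₀), h2, rfl⟩

end Pool.Agent.Results.MP_f7c28d_an.AllTemperatures
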